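import Pool.Agent.helper96.BootFinite

/-!
# Occupation time at criticality for subcritical `U`-bootstrap percolation

For every subcritical update family `U` the answer to Q2 is determined:

* if `p_c(U) < 1` then `ℙ_{p_c}(T > n) ≥ 1 / (C n)` for all `n ≥ 1`, and `𝔼_{p_c} T = ∞`;
* if `p_c(U) = 1` then `T = 0` almost surely under `ℙ_{p_c}`;
* `p_c(U) < 1` exactly when some rule `X ∈ U` lies in an open half-plane.
-/

set_option autoImplicit false

open MeasureTheory ProbabilityTheory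
open scoped ENNReal

namespace Pool.Agent.Results.MP_28b826_pr.CriticalInfiniteMean

open Pool.Agent.helper96.Boot

/-- The answer to Q2 for every subcritical update family. -/
theorem result (U : Finset (Finset (ℤ × ℤ))) (_hU : IsUpdateFamily U) (hsub : Subcritical U) :
    (criticalProb U < 1 ↔
      ∃ X ∈ U, ∃ u : ℝ × ℝ, ∀ y ∈ X, 0 < (y.1 : ℝ) * u.1 + (y.2 : ℝ) * u.2) ∧
    (criticalProb U < 1 →
      (∃ C : ℕ, 1 ≤ C ∧ ∀ n : ℕ, 1 ≤ n →
        1 / ((C : ℝ≥0∞) * (n : ℝ≥0∞)) ≤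
          bernoulliSites (criticalProb U) {A | (n : ℕ∞) < occTime U A}) ∧
      ∫⁻ A, ((occTime U A : ℕ∞) : ℝ≥0∞) ∂(bernoulliSites (criticalProb U)) = ⊤) ∧
    (criticalProb U = 1 →
      ∀ᵐ A ∂(bernoulliSites (criticalProb U)), occTime U A = 0) := by
  have h0 : ∅ ∉ U := hsub.empty_notMem
  have hrule : criticalProb U < 1 →
      ∃ X ∈ U, ∃ u : ℝ × ℝ, ∀ y ∈ X, 0 < (y.1 : ℝ) * u.1 + (y.2 : ℝ) * u.2 := by
    intro hlt
    by_contra hcon
    push Not at hcon
    refine absurd (criticalProb_eq_one (U := U) ?_) (ne_of_lt hlt)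
    rintro X hX ⟨u, hu⟩
    obtain ⟨y, hy, hy2⟩ := hcon X hX u
    exact absurd (hu y hy) (not_lt.2 hy2)
  refine ⟨⟨hrule, ?_⟩, ?_, ?_⟩
  · rintro ⟨X, hX, u, hu⟩
    obtain ⟨a, b, m, hm, hl⟩ := exists_lin X u hu
    obtain ⟨R, hR1, hR⟩ := exists_radius U
    exact criticalProb_lt_one hX hR hl hm
  · intro hlt
    obtain ⟨X, hX, u, hu⟩ := hrule hlt
    refine ⟨?_, critical_expectation h0 hX u hu⟩
    obtain ⟨C, hC, hb⟩ := critical_tail h0 hX u hu
    refine ⟨C, hC, fun n hn => ?_⟩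
    have h1 := hb n hn
    have h2 : {A | (n : ℕ∞) < occTime U A} = notInf U n 0 := by
      ext A
      exact lt_occTime_iff A n
    rw [h2]
    have h3 : ((C * n : ℕ) : ℝ≥0∞) = (C : ℝ≥0∞) * (n : ℝ≥0∞) := by push_cast; ring
    rw [h3] at h1
    rw [ENNReal.div_le_iff_le_mul]
    · rwa [mul_comm]
    · left
      have : (C : ℝ≥0∞) * (n : ℝ≥0∞) ≠ 0 := by
        rw [← h3]
        have : 0 < C * n := Nat.mul_pos (by omega) (by omega)
        exact_mod_cast this.ne'
      exact this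
    · left
      rw [← h3]; exact ENNReal.natCast_ne_top _
  · intro h1
    rw [h1, ae_iff]
    refine measure_mono_null ?_ (notInf_one (U := U) 0)
    intro A hA hmem
    apply hA
    have h2 : occTime U A ≤ ((0 : ℕ) : ℕ∞) := by
      unfold occTime
      exact iInf₂_le (f := fun (t : ℕ) (_ : (0 : ℤ × ℤ) ∈ evolve U A t) => (t : ℕ∞)) 0 hmem
    rw [Nat.cast_zero] at h2
    exact nonpos_iff_eq_zero.1 h2

end Pool.Agent.Results.MP_28b826_pr.CriticalInfiniteMean
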